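import Pool.Agent.H20.MT.Stmts
import Pool.Agent.H20.MT.Rho

/-!
# Project MTA: module TI (type I sums)
-/

set_option autoImplicit false

namespace MTA
open Finset

/-- sum over a complete system of residues -/
private theorem TI_full (r : ℕ) [NeZero r] (χ : DirichletCharacter ℂ r) (hχ : χ ≠ 1) :
    ∑ m ∈ range r, χ (m : ZMod r) = 0 := by
  obtain ⟨k, rfl⟩ : ∃ k, r = k + 1 := ⟨r - 1, (Nat.succ_pred_eq_of_ne_zero (NeZero.ne r)).symm⟩
  have h1 : ∑ a : ZMod (k + 1), χ a = 0 := MulChar.sum_eq_zero_of_ne_one hχ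
  rw [← h1, Finset.sum_range]
  refine Finset.sum_congr rfl (fun i _ => ?_)
  congr 1
  exact Fin.cast_val_eq_self i

/-- partial sums of a character -/
private theorem TI_part (r : ℕ) [NeZero r] (χ : DirichletCharacter ℂ r) (hχ : χ ≠ 1) (n : ℕ) :
    ‖∑ m ∈ range n, χ (m : ZMod r)‖ ≤ r := by
  induction n using Nat.strong_induction_on with
  | _ n ih =>
    by_cases h : n ≤ r
    · calc ‖∑ m ∈ range n, χ (m : ZMod r)‖ ≤ ∑ m ∈ range n, ‖χ (m : ZMod r)‖ := norm_sum_le _ _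
        _ ≤ ∑ _m ∈ range n, (1 : ℝ) := Finset.sum_le_sum (fun m _ => χ.norm_le_one _)
        _ = n := by simp
        _ ≤ r := by exact_mod_cast h
    · push Not at h
      obtain ⟨k, rfl⟩ : ∃ k, n = r + k := ⟨n - r, by omega⟩
      rw [Finset.sum_range_add, TI_full r χ hχ, zero_add]
      have h1 : ∑ x ∈ range k, χ ((r + x : ℕ) : ZMod r) = ∑ x ∈ range k, χ (x : ZMod r) := by
        refine Finset.sum_congr rfl (fun x _ => ?_)
        congr 1
        push_cast
        simp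
      rw [h1]
      have hr : 0 < r := Nat.pos_of_ne_zero (NeZero.ne r)
      exact ih k (by omega)

/-- shifted partial sums -/
private theorem TI_part' (r : ℕ) [NeZero r] (χ : DirichletCharacter ℂ r) (hχ : χ ≠ 1) (n : ℕ) :
    ‖∑ i ∈ range n, χ ((i + 1 : ℕ) : ZMod r)‖ ≤ 2 * r := by
  have h1 := Finset.sum_range_succ' (fun m : ℕ => χ (m : ZMod r)) n
  have h2 : ∑ i ∈ range n, χ ((i + 1 : ℕ) : ZMod r) =
      ∑ m ∈ range (n + 1), χ (m : ZMod r) - χ ((0 : ℕ) : ZMod r) := by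
    rw [h1]; ring
  rw [h2]
  have hr : (1 : ℝ) ≤ r := by exact_mod_cast Nat.pos_of_ne_zero (NeZero.ne r)
  calc _ ≤ ‖∑ m ∈ range (n + 1), χ (m : ZMod r)‖ + ‖χ ((0 : ℕ) : ZMod r)‖ := norm_sub_le _ _
    _ ≤ r + 1 := add_le_add (TI_part r χ hχ _) (χ.norm_le_one _)
    _ ≤ 2 * r := by linarith

/-- Abel summation -/
private theorem TI_abel (c : ℕ → ℂ) (f : ℕ → ℝ) (B : ℝ) (hB : ∀ n, ‖∑ i ∈ range n, c i‖ ≤ B)
    (N : ℕ) : ‖∑ i ∈ range (N + 1), (f i : ℂ) * c i‖ ≤
      B * (|f N| + ∑ i ∈ range N, |f (i + 1) - f i|) := by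
  have hB0 : 0 ≤ B := (norm_nonneg _).trans (hB 0)
  have h := Finset.sum_range_by_parts (fun i => (f i : ℂ)) c (N + 1)
  simp only [smul_eq_mul, Nat.add_sub_cancel] at h
  rw [h]
  refine (norm_sub_le _ _).trans ?_
  rw [mul_add]
  refine add_le_add ?_ ?_
  · rw [norm_mul, Complex.norm_real, Real.norm_eq_abs, mul_comm]
    exact mul_le_mul_of_nonneg_right (hB _) (abs_nonneg _)
  · refine (norm_sum_le _ _).trans ?_
    rw [Finset.mul_sum]
    refine Finset.sum_le_sum (fun i _ => ?_)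
    rw [norm_mul, mul_comm, ← Complex.ofReal_sub, Complex.norm_real, Real.norm_eq_abs]
    exact mul_le_mul_of_nonneg_right (hB _) (abs_nonneg _)

/-- total variation of a unimodal sequence -/
private theorem TI_var (f : ℕ → ℝ) (T : ℝ) (h0 : ∀ i, 0 ≤ f i) (h1 : ∀ i, f i ≤ 1)
    (hup : ∀ i : ℕ, ((i + 1 : ℕ) : ℝ) ≤ T → f i ≤ f (i + 1))
    (hdn : ∀ i : ℕ, T < (i : ℝ) → f (i + 1) ≤ f i) (n : ℕ) :
    ∑ i ∈ range n, |f (i + 1) - f i| ≤ 3 := by
  have key : ((n : ℝ) ≤ T → ∑ i ∈ range n, |f (i + 1) - f i| ≤ f n) ∧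
      (T < (n : ℝ) → ∑ i ∈ range n, |f (i + 1) - f i| ≤ 3 - f n) := by
    induction n with
    | zero =>
      simp only [range_zero, sum_empty]
      exact ⟨fun _ => h0 0, fun _ => by linarith [h1 0]⟩
    | succ n ih =>
      rw [Finset.sum_range_succ]
      constructor
      · intro h
        have h2 := hup n h
        have h3 : (n : ℝ) ≤ T := by
          push_cast at h
          linarith
        rw [abs_of_nonneg (by linarith)]
        linarith [ih.1 h3]
      · intro h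
        by_cases h3 : (n : ℝ) ≤ T
        · have h4 := ih.1 h3
          have h5 : |f (n + 1) - f n| ≤ 1 := by
            rw [abs_le]
            constructor <;> linarith [h0 n, h0 (n + 1), h1 n, h1 (n + 1)]
          linarith [h1 n, h1 (n + 1)]
        · push Not at h3
          have h4 := ih.2 h3
          have h5 := hdn n h3
          rw [abs_of_nonpos (by linarith)]
          linarith
  by_cases h : (n : ℝ) ≤ T
  · linarith [key.1 h, h1 n]
  · push Not at h
    linarith [key.2 h, h0 n]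

theorem TI : S_TI := by
  refine ⟨40, by norm_num, ?_⟩
  intro X r _ χ d hX hχ hd
  have hX0 : 0 < X := by linarith
  have hdR : (1 : ℝ) ≤ d := by exact_mod_cast hd
  have hd0 : (0 : ℝ) < d := by linarith
  have hr : (1 : ℝ) ≤ r := by exact_mod_cast Nat.pos_of_ne_zero (NeZero.ne r)
  have hlogX : 0 < Real.log X := Real.log_pos (by linarith)
  -- the case of the empty sum
  rcases Nat.eq_zero_or_pos ⌊8 * X / d⌋₊ with hN | hN
  · rw [hN]
    simp only [Finset.Icc_eq_empty_of_lt (Nat.zero_lt_one), Finset.sum_empty, norm_zero]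
    exact ⟨by positivity, by positivity⟩
  obtain ⟨N, hNe⟩ : ∃ N, ⌊8 * X / d⌋₊ = N + 1 := ⟨⌊8 * X / d⌋₊ - 1, by omega⟩
  rw [hNe]
  have shift : ∀ F : ℕ → ℂ, ∑ m ∈ Icc 1 (N + 1), F m = ∑ i ∈ range (N + 1), F (i + 1) := by
    intro F
    rw [Finset.range_eq_Ico, Finset.sum_Ico_add' F 0 (N + 1) 1]
    rfl
  set f : ℕ → ℝ := fun i => rho (Real.log (d * ((i + 1 : ℕ) : ℝ) / X)) with hf
  have f0 : ∀ i, 0 ≤ f i := fun i => rho_nonneg _
  have f1 : ∀ i, f i ≤ 1 := fun i => rho_le_one _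
  set T : ℝ := X / d - 1 with hT
  have hpos : ∀ i : ℕ, 0 < (d : ℝ) * ((i + 1 : ℕ) : ℝ) / X := fun i => by positivity
  have hlogmono : ∀ i : ℕ, Real.log (d * ((i + 1 : ℕ) : ℝ) / X) ≤
      Real.log (d * ((i + 1 + 1 : ℕ) : ℝ) / X) := by
    intro i
    refine Real.log_le_log (hpos i) ?_
    have : ((i + 1 : ℕ) : ℝ) ≤ ((i + 1 + 1 : ℕ) : ℝ) := by exact_mod_cast Nat.le_succ _
    gcongr
  have hvar : ∑ i ∈ range N, |f (i + 1) - f i| ≤ 3 := by
    refine TI_var f T f0 f1 ?_ ?_ N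
    · intro i hi
      refine rho_anti ?_
      have h1 : d * ((i + 1 + 1 : ℕ) : ℝ) / X ≤ 1 := by
        rw [div_le_one hX0]
        have h2 : ((i + 1 + 1 : ℕ) : ℝ) ≤ X / d := by
          push_cast at hi ⊢
          rw [hT] at hi
          linarith
        rw [le_div_iff₀ hd0] at h2
        linarith
      have h3 : Real.log (d * ((i + 1 + 1 : ℕ) : ℝ) / X) ≤ 0 :=
        Real.log_nonpos (hpos (i + 1)).le h1
      rw [abs_of_nonpos h3, abs_of_nonpos ((hlogmono i).trans h3)]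
      linarith [hlogmono i]
    · intro i hi
      refine rho_anti ?_
      have h1 : 1 ≤ d * ((i + 1 : ℕ) : ℝ) / X := by
        rw [le_div_iff₀ hX0, one_mul]
        have h2 : X / d < ((i + 1 : ℕ) : ℝ) := by
          push_cast
          rw [hT] at hi
          linarith
        rw [div_lt_iff₀ hd0] at h2
        linarith
      have h3 : 0 ≤ Real.log (d * ((i + 1 : ℕ) : ℝ) / X) := Real.log_nonneg h1
      rw [abs_of_nonneg h3, abs_of_nonneg (h3.trans (hlogmono i))]
      exact hlogmono i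
  have hBc : ∀ n, ‖∑ i ∈ range n, χ ((i + 1 : ℕ) : ZMod r)‖ ≤ 2 * r := TI_part' r χ hχ
  constructor
  · rw [shift]
    have h1 := TI_abel (fun i => χ ((i + 1 : ℕ) : ZMod r)) f (2 * r) hBc N
    have h2 : ∑ i ∈ range (N + 1), χ ((i + 1 : ℕ) : ZMod r) *
        (rho (Real.log (d * ((i + 1 : ℕ) : ℝ) / X)) : ℂ) =
        ∑ i ∈ range (N + 1), (f i : ℂ) * χ ((i + 1 : ℕ) : ZMod r) :=
      Finset.sum_congr rfl (fun i _ => mul_comm _ _)
    rw [h2]
    refine h1.trans ?_
    have h3 : |f N| ≤ 1 := by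
      rw [abs_of_nonneg (f0 N)]
      exact f1 N
    calc 2 * (r : ℝ) * (|f N| + ∑ i ∈ range N, |f (i + 1) - f i|) ≤ 2 * r * (1 + 3) := by
          gcongr
      _ ≤ 40 * r := by linarith
  · rw [shift]
    set g : ℕ → ℝ := fun i => Real.log ((i + 1 : ℕ) : ℝ) * f i with hg
    have h1 := TI_abel (fun i => χ ((i + 1 : ℕ) : ZMod r)) g (2 * r) hBc N
    have h2 : ∑ i ∈ range (N + 1), χ ((i + 1 : ℕ) : ZMod r) * (Real.log ((i + 1 : ℕ) : ℝ) : ℂ) *
        (rho (Real.log (d * ((i + 1 : ℕ) : ℝ) / X)) : ℂ) =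
        ∑ i ∈ range (N + 1), (g i : ℂ) * χ ((i + 1 : ℕ) : ZMod r) := by
      refine Finset.sum_congr rfl (fun i _ => ?_)
      have h9 : ((g i : ℝ) : ℂ) = (Real.log ((i + 1 : ℕ) : ℝ) : ℂ) *
          (rho (Real.log (d * ((i + 1 : ℕ) : ℝ) / X)) : ℂ) := Complex.ofReal_mul _ _
      rw [h9]
      ring
    rw [h2]
    refine h1.trans ?_
    set Lg : ℝ := Real.log ((N + 1 : ℕ) : ℝ) with hLg
    have hLg0 : 0 ≤ Lg := Real.log_nonneg (by push_cast; linarith [Nat.cast_nonneg (α := ℝ) N])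
    have hlog0 : ∀ i : ℕ, 0 ≤ Real.log ((i + 1 : ℕ) : ℝ) := fun i =>
      Real.log_nonneg (by push_cast; linarith [Nat.cast_nonneg (α := ℝ) i])
    have hlm : ∀ i : ℕ, Real.log ((i + 1 : ℕ) : ℝ) ≤ Real.log ((i + 1 + 1 : ℕ) : ℝ) := fun i =>
      Real.log_le_log (by positivity) (by exact_mod_cast Nat.le_succ _)
    have hlN : ∀ i < N + 1, Real.log ((i + 1 : ℕ) : ℝ) ≤ Lg := fun i hi =>
      Real.log_le_log (by positivity) (by exact_mod_cast (by omega : i + 1 ≤ N + 1))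
    have h3 : |g N| ≤ Lg := by
      rw [abs_of_nonneg (mul_nonneg (hlog0 N) (f0 N))]
      exact mul_le_of_le_one_right (hlog0 N) (f1 N)
    have h4 : ∑ i ∈ range N, |g (i + 1) - g i| ≤ 4 * Lg := by
      have h5 : ∀ i ∈ range N, |g (i + 1) - g i| ≤ Lg * |f (i + 1) - f i| +
          (Real.log ((i + 1 + 1 : ℕ) : ℝ) - Real.log ((i + 1 : ℕ) : ℝ)) := by
        intro i hi
        rw [mem_range] at hi
        have h6 : g (i + 1) - g i = Real.log ((i + 1 + 1 : ℕ) : ℝ) * (f (i + 1) - f i) +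
            (Real.log ((i + 1 + 1 : ℕ) : ℝ) - Real.log ((i + 1 : ℕ) : ℝ)) * f i := by
          rw [hg]
          ring
        rw [h6]
        refine (abs_add_le _ _).trans ?_
        rw [abs_mul, abs_mul]
        refine add_le_add ?_ ?_
        · rw [abs_of_nonneg (hlog0 (i + 1))]
          exact mul_le_mul_of_nonneg_right (hlN (i + 1) (by omega)) (abs_nonneg _)
        · rw [abs_of_nonneg (sub_nonneg.2 (hlm i)), abs_of_nonneg (f0 i)]
          exact mul_le_of_le_one_right (sub_nonneg.2 (hlm i)) (f1 i)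
      refine (Finset.sum_le_sum h5).trans ?_
      rw [Finset.sum_add_distrib, ← Finset.mul_sum,
        Finset.sum_range_sub (fun i : ℕ => Real.log ((i + 1 : ℕ) : ℝ)) N]
      have h7 : Real.log ((0 + 1 : ℕ) : ℝ) = 0 := by simp
      rw [h7]
      nlinarith
    have h5 : Lg ≤ 4 * Real.log X := by
      have h6 : ((N + 1 : ℕ) : ℝ) ≤ 8 * X := by
        rw [← hNe]
        refine (Nat.floor_le (by positivity)).trans ?_
        exact div_le_self (by positivity) hdR
      have h7 : (8 : ℝ) * X ≤ X ^ 4 := by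
        have h8 : (8 : ℝ) ≤ X ^ 3 := by
          calc (8 : ℝ) = 2 ^ 3 := by norm_num
            _ ≤ X ^ 3 := pow_le_pow_left₀ (by norm_num) hX 3
        calc (8 : ℝ) * X ≤ X ^ 3 * X := mul_le_mul_of_nonneg_right h8 hX0.le
          _ = X ^ 4 := by ring
      have h8 : Lg ≤ Real.log (X ^ 4) := Real.log_le_log (by positivity) (h6.trans h7)
      rw [Real.log_pow] at h8
      push_cast at h8
      exact h8
    calc 2 * (r : ℝ) * (|g N| + ∑ i ∈ range N, |g (i + 1) - g i|) ≤ 2 * r * (Lg + 4 * Lg) := by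
          gcongr
      _ = 10 * r * Lg := by ring
      _ ≤ 10 * r * (4 * Real.log X) := by gcongr
      _ = 40 * r * Real.log X := by ring

end MTA
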