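import Pool.Agent.H20.MT.Stmts

/-!
# Project MTA: module REPP (repulsion of quadratic characters)
-/

set_option autoImplicit false

namespace MTA
open Finset

private theorem REPP_lift {r N : ℕ} [NeZero N] (h : r ∣ N) (χ : DirichletCharacter ℂ r) (n : ℕ) :
    DirichletCharacter.changeLevel h χ (n : ZMod N) = if n.Coprime N then χ (n : ZMod r) else 0 := by
  split_ifs with hc
  · have := DirichletCharacter.changeLevel_eq_cast_of_dvd' χ h (a := (n : ℤ))
      (by simpa [Nat.isCoprime_iff_coprime] using hc)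
    simpa using this
  · apply MulChar.map_nonunit
    rwa [ZMod.isUnit_iff_coprime]

private theorem REPP_vals {r : ℕ} {χ : DirichletCharacter ℂ r} (h : χ ^ 2 = 1) (a : ZMod r) :
    ∃ x : ℝ, χ a = (x : ℂ) ∧ (x = 0 ∨ x = 1 ∨ x = -1) := by
  rcases MulChar.isQuadratic_iff_sq_eq_one.mpr h a with h | h | h
  · exact ⟨0, by simp [h], Or.inl rfl⟩
  · exact ⟨1, by simp [h], Or.inr (Or.inl rfl)⟩
  · exact ⟨-1, by simp [h], Or.inr (Or.inr rfl)⟩

private theorem REPP_real {x a b : ℝ} (h0 : 0 < x) (h1 : x < 1) (ha : a = 0 ∨ a = 1 ∨ a = -1)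
    (hb : b = 0 ∨ b = 1 ∨ b = -1) :
    0 ≤ -Real.log (1 - x) + -Real.log (1 - a * x) + -Real.log (1 - b * x) +
      -Real.log (1 - (a * b) * x) := by
  have h2 : Real.log (1 - x) ≤ 0 := Real.log_nonpos (by linarith) (by linarith)
  have h3 : Real.log (1 - x) + Real.log (1 + x) ≤ 0 := by
    rw [← Real.log_mul (by linarith) (by linarith)]
    exact Real.log_nonpos (by nlinarith) (by nlinarith)
  rcases ha with rfl | rfl | rfl <;> rcases hb with rfl | rfl | rfl <;> norm_num <;> linarith

theorem REPP : S_REPP := by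
  intro r0 r1 _ _ χ0 χ1 h0 h1 hp0 hp1 hne
  have hN : NeZero (r0 * r1) := ⟨mul_ne_zero (NeZero.ne r0) (NeZero.ne r1)⟩
  set α := DirichletCharacter.changeLevel (dvd_mul_right r0 r1) χ0 with hα
  set β := DirichletCharacter.changeLevel (dvd_mul_left r1 r0) χ1 with hβ
  refine ⟨α * β, ?_, ?_⟩
  · intro hψ
    have e1 : α ^ 2 = 1 := by rw [hα, ← map_pow, h0, map_one]
    have e2 : α = β := by
      have : α * (α * β) = α := by rw [hψ, mul_one]
      rw [← mul_assoc, ← sq, e1, one_mul] at this
      exact this.symm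
    have e3 : r0 = r1 := by
      have c0 := DirichletCharacter.conductor_changeLevel χ0 (dvd_mul_right r0 r1)
      have c1 := DirichletCharacter.conductor_changeLevel χ1 (dvd_mul_left r1 r0)
      rw [← hα, e2] at c0
      rw [← hβ] at c1
      rw [hp0] at c0
      rw [hp1] at c1
      exact c0.symm.trans c1
    subst e3
    apply hne
    have : χ0 = χ1 := DirichletCharacter.changeLevel_injective _ e2
    rw [this]
  · intro σ hσ
    have hs : 1 < (σ : ℂ).re := by simpa using hσ
    have hψ : ∀ n : ℕ, (α * β) (n : ZMod (r0 * r1)) = χ0 n * χ1 n := by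
      intro n
      rw [MulChar.mul_apply, hα, hβ, REPP_lift, REPP_lift]
      by_cases hc : n.Coprime (r0 * r1)
      · rw [if_pos hc, if_pos hc]
      · rw [if_neg hc, if_neg hc, zero_mul]
        rw [Nat.coprime_mul_iff_right, not_and_or] at hc
        symm
        rcases hc with hc | hc
        · rw [χ0.map_nonunit (by rwa [ZMod.isUnit_iff_coprime]), zero_mul]
        · rw [χ1.map_nonunit (by rwa [ZMod.isUnit_iff_coprime]), mul_zero]
    have hL : ∀ {r : ℕ} (χ : DirichletCharacter ℂ r), Lj χ 0 σ =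
        Complex.exp (∑' p : Nat.Primes, -Complex.log (1 - χ p * (p : ℂ) ^ (-(σ : ℂ)))) := by
      intro r χ
      rw [DirichletCharacter.LSeries_eulerProduct_exp_log χ hs]
      unfold Lj
      simp only [pow_zero, mul_one]
    have hζ := riemannZeta_eulerProduct_exp_log hs
    have H0 := χ0.summable_neg_log_one_sub_mul_prime_cpow hs
    have H1 := χ1.summable_neg_log_one_sub_mul_prime_cpow hs
    have Hψ := (α * β).summable_neg_log_one_sub_mul_prime_cpow hs
    have Hζ : Summable fun p : Nat.Primes => -Complex.log (1 - (p : ℂ) ^ (-(σ : ℂ))) := by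
      have := (1 : DirichletCharacter ℂ 1).summable_neg_log_one_sub_mul_prime_cpow hs
      simpa [MulChar.one_apply <| isUnit_of_subsingleton _] using this
    rw [hL, hL, hL, ← hζ, Complex.norm_exp, Complex.norm_exp, Complex.norm_exp, Complex.norm_exp,
      ← Real.exp_add, ← Real.exp_add, ← Real.exp_add, Real.one_le_exp_iff, Complex.re_tsum Hζ,
      Complex.re_tsum H0, Complex.re_tsum H1, Complex.re_tsum Hψ]
    have S0 := (Complex.hasSum_re H0.hasSum).summable
    have S1 := (Complex.hasSum_re H1.hasSum).summable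
    have Sψ := (Complex.hasSum_re Hψ.hasSum).summable
    have Sζ := (Complex.hasSum_re Hζ.hasSum).summable
    rw [← Sζ.tsum_add S0, ← (Sζ.add S0).tsum_add S1, ← ((Sζ.add S0).add S1).tsum_add Sψ]
    refine tsum_nonneg fun p => ?_
    rw [hψ]
    obtain ⟨a, ha, ha'⟩ := REPP_vals h0 (p : ZMod r0)
    obtain ⟨b, hb, hb'⟩ := REPP_vals h1 (p : ZMod r1)
    rw [ha, hb]
    have hx : (p : ℂ) ^ (-(σ : ℂ)) = (((p : ℝ) ^ (-σ) : ℝ) : ℂ) := by
      rw [Complex.ofReal_cpow (by positivity)]
      push_cast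
      rfl
    have hp1 : (1 : ℝ) < p := by exact_mod_cast p.2.one_lt
    have hx0 : 0 < (p : ℝ) ^ (-σ) := by positivity
    have hx1 : (p : ℝ) ^ (-σ) < 1 := Real.rpow_lt_one_of_one_lt_of_neg hp1 (by linarith)
    rw [hx]
    have e : ∀ y : ℝ, 0 ≤ 1 - y * (p : ℝ) ^ (-σ) →
        (-Complex.log (1 - (y : ℂ) * (((p : ℝ) ^ (-σ) : ℝ) : ℂ))).re =
          -Real.log (1 - y * (p : ℝ) ^ (-σ)) := by
      intro y hy
      rw [Complex.neg_re, Complex.log_re]
      congr 1
      have : (1 - (y : ℂ) * (((p : ℝ) ^ (-σ) : ℝ) : ℂ)) = ((1 - y * (p : ℝ) ^ (-σ) : ℝ) : ℂ) := by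
        push_cast
        ring
      rw [this, Complex.norm_real, Real.norm_of_nonneg hy]
    have e1 := e 1 (by linarith)
    rw [Complex.ofReal_one, one_mul, one_mul] at e1
    rw [e1, e a (by rcases ha' with rfl | rfl | rfl <;> linarith),
      e b (by rcases hb' with rfl | rfl | rfl <;> linarith), ← Complex.ofReal_mul, e (a * b) (by
        rcases ha' with rfl | rfl | rfl <;> rcases hb' with rfl | rfl | rfl <;> linarith)]
    exact REPP_real hx0 hx1 ha' hb'

end MTA
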